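import Mathlib
import Pool.Agent.Q63.KU.MotDefs

/-!
# Motives of abelian coverings of the plane branched over lines: definitions
-/

set_option autoImplicit false

namespace Pool.Agent.Q63.KI

open CategoryTheory Multiplicative

/-- The projector for the character `a`. -/
noncomputable def prj {𝒞 : Type} [Category.{0} 𝒞] [Preadditive 𝒞] [Linear ℂ 𝒞] {M : 𝒞} {m s : ℕ}
    [NeZero m] (ψ : AddChar (ZMod m) ℂ) (ρ : Multiplicative (Fin s → ZMod m) →* End M)
    (a : Fin s → ZMod m) : M ⟶ M :=
  ((m : ℂ) ^ s)⁻¹ • ∑ h : Fin s → ZMod m, ψ (-∑ i, a i * h i) • (ρ (ofAdd h) : M ⟶ M)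

/-- The number of the lines over which the cyclic covering with the exponents `a` is branched. -/
def lines {m s : ℕ} (a : Fin s → ZMod m) : ℕ := (Finset.univ.filter fun i => a i ≠ 0).card

/-- The cyclic covering of the plane branched over the lines with the exponents `a` is branched over at most four
lines, or over five lines and two of the exponents have the sum zero. In the second case the pencil of lines through the
intersection point of these two lines is a pencil of curves on the covering which are coverings of
`P^1` branched over three points. -/
def Isotrivial {m s : ℕ} (a : Fin s → ZMod m) : Prop :=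
  lines a ≤ 4 ∨ (lines a = 5 ∧ ∃ i j, i ≠ j ∧ a i ≠ 0 ∧ a i + a j = 0)

/-- `X` is (a desingularisation of) an abelian covering of the complex projective plane branched over `s` lines
`D_i` in general position, with a group which is a quotient of `(ℤ/m)^s`, where the `i`-th generator goes to the
canonical generator of the inertia group of `D_i`; `Λ` is the group of its characters. `M` is the Chow motive `h(X)`
with coefficients in `ℂ` (`𝒞` is the category of these motives), `ρ` is the action of `(ℤ/m)^s`, `Q a` is the
motive of the surface `X / ker a`, `push a` and `pull a` are the push-forward (divided by the degree) and the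
pull-back. -/
structure LineCoverMotive {𝒞 : Type} [Category.{0} 𝒞] [Preadditive 𝒞] [Linear ℂ 𝒞] {m s : ℕ} [NeZero m]
    (Λ : AddSubgroup (Fin s → ZMod m)) (ψ : AddChar (ZMod m) ℂ) (P : 𝒞 → Prop) (M : 𝒞)
    (ρ : Multiplicative (Fin s → ZMod m) →* End M) (Q : (Fin s → ZMod m) → 𝒞)
    (push : ∀ a, M ⟶ Q a) (pull : ∀ a, Q a ⟶ M) : Prop where
  /-- only characters of the covering occur -/
  characters : ∀ a, a ∉ Λ → prj ψ ρ a = 0
  /-- pull-back after push-forward is the average over `ker a` -/
  average : ∀ a ∈ Λ, push a ≫ pull a = ((Fintype.card {h : Fin s → ZMod m // ∑ i, a i * h i = 0} : ℂ))⁻¹ •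
    ∑ h : {h : Fin s → ZMod m // ∑ i, a i * h i = 0}, (ρ (ofAdd h.1) : M ⟶ M)
  /-- Cyclic coverings branched over at most four lines are quotients of Fermat surfaces, and those with a pencil of
  coverings of `P^1` branched over three points are birational to quotients of products of two curves. -/
  known : ∀ a ∈ Λ, Isotrivial a → P (Q a)

end Pool.Agent.Q63.KI
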