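import Mathlib
import Pool.Agent.Q63.KI.Defs
import Pool.Agent.Q63.KU.Dec

set_option autoImplicit false

namespace Pool.Agent.Q63.KI

open CategoryTheory Multiplicative Pool.Agent.Q63.KU

variable {𝒞 : Type} [Category.{0} 𝒞] [Preadditive 𝒞] [Linear ℂ 𝒞] {M : 𝒞} {m s : ℕ} [NeZero m]
  {ψ : AddChar (ZMod m) ℂ}

lemma sum_prj (hψ : ψ.IsPrimitive) (ρ : Multiplicative (Fin s → ZMod m) →* End M) :
    ∑ a, prj ψ ρ a = 𝟙 M := by
  have hm : ((m : ℂ) ^ s) ≠ 0 := pow_ne_zero _ (by exact_mod_cast NeZero.ne m)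
  unfold prj
  rw [← Finset.smul_sum, Finset.sum_comm]
  simp_rw [← Finset.sum_smul, sum_char hψ, ite_smul, zero_smul]
  rw [Finset.sum_ite_eq' Finset.univ (0 : Fin s → ZMod m), if_pos (Finset.mem_univ _), smul_smul,
    inv_mul_cancel₀ hm, one_smul]
  have : ofAdd (0 : Fin s → ZMod m) = 1 := rfl
  rw [this, map_one]
  rfl

lemma ker_prj (ρ : Multiplicative (Fin s → ZMod m) →* End M) {a h : Fin s → ZMod m}
    (hh : ∑ i, a i * h i = 0) : (ρ (ofAdd h) : M ⟶ M) ≫ prj ψ ρ a = prj ψ ρ a := by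
  unfold prj
  rw [Linear.comp_smul, Preadditive.comp_sum]
  congr 1
  refine Fintype.sum_equiv (Equiv.addLeft h) _ _ fun h' => ?_
  have h2 : ∑ i, a i * (h + h') i = ∑ i, a i * h' i := by
    have h1 : ∑ i, a i * (h + h') i = ∑ i, a i * h i + ∑ i, a i * h' i := by
      rw [← Finset.sum_add_distrib]
      exact Finset.sum_congr rfl fun i _ => by rw [Pi.add_apply, mul_add]
    rw [h1, hh, zero_add]
  rw [Linear.comp_smul, Equiv.coe_addLeft, h2]
  congr 1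
  have h1 : ofAdd (h + h') = ofAdd h' * ofAdd h := by
    rw [add_comm]
    rfl
  rw [h1, map_mul]
  rfl

theorem motive {Λ : AddSubgroup (Fin s → ZMod m)} (hψ : ψ.IsPrimitive) {P : 𝒞 → Prop}
    (hP : SummandClosed P) {ρ : Multiplicative (Fin s → ZMod m) →* End M} {Q : (Fin s → ZMod m) → 𝒞}
    {push : ∀ a, M ⟶ Q a} {pull : ∀ a, Q a ⟶ M} (hM : LineCoverMotive Λ ψ P M ρ Q push pull)
    (hgood : ∀ a ∈ Λ, Isotrivial a) : P M := by
  classical
  let e := Fintype.equivFin {a : Fin s → ZMod m // a ∈ Λ}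
  refine hP _ (fun n => Q (e.symm n).1) M (fun n => push (e.symm n).1)
    (fun n => pull (e.symm n).1 ≫ prj ψ ρ (e.symm n).1)
    (fun n => hM.known _ (e.symm n).2 (hgood _ (e.symm n).2)) ?_
  have h1 : ∀ a ∈ Λ, push a ≫ pull a ≫ prj ψ ρ a = prj ψ ρ a := by
    intro a ha
    rw [← Category.assoc, hM.average a ha, Linear.smul_comp, Preadditive.sum_comp]
    have hc : ∀ h : {h : Fin s → ZMod m // ∑ i, a i * h i = 0},
        (ρ (ofAdd h.1) : M ⟶ M) ≫ prj ψ ρ a = prj ψ ρ a := fun h => ker_prj ρ h.2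
    rw [Finset.sum_congr rfl fun h _ => hc h, Finset.sum_const, Finset.card_univ,
      ← Nat.cast_smul_eq_nsmul ℂ, smul_smul, inv_mul_cancel₀, one_smul]
    have : Nonempty {h : Fin s → ZMod m // ∑ i, a i * h i = 0} := ⟨⟨0, by simp⟩⟩
    exact_mod_cast Fintype.card_ne_zero
  have h2 : ∑ n, push (e.symm n).1 ≫ pull (e.symm n).1 ≫ prj ψ ρ (e.symm n).1 =
      ∑ a : {a : Fin s → ZMod m // a ∈ Λ}, prj ψ ρ a.1 := by
    rw [Fintype.sum_equiv e.symm _ (fun a : {a : Fin s → ZMod m // a ∈ Λ} =>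
      push a.1 ≫ pull a.1 ≫ prj ψ ρ a.1) fun _ => rfl]
    exact Finset.sum_congr rfl fun a _ => h1 a.1 a.2
  rw [h2]
  have h3 : ∑ a : {a : Fin s → ZMod m // a ∈ Λ}, prj ψ ρ a.1 =
      ∑ a ∈ Finset.univ.filter (fun a => a ∈ Λ), prj ψ ρ a :=
    (Finset.sum_subtype (p := fun a => a ∈ Λ) _ (by simp) _).symm
  rw [h3, Finset.sum_filter, ← sum_prj hψ ρ]
  refine Finset.sum_congr rfl fun a _ => ?_
  by_cases ha : a ∈ Λ
  · rw [if_pos ha]
  · rw [if_neg ha, hM.characters a ha]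

instance decLines {m s : ℕ} (a : Fin s → ZMod m) [NeZero m] : Decidable (Isotrivial a) := by
  unfold Isotrivial
  infer_instance

theorem five3 : ∀ a : Fin 5 → ZMod 3, ∑ i, a i = 0 → Isotrivial a := by decide +kernel

theorem five4 : ∀ a : Fin 5 → ZMod 4, ∑ i, a i = 0 → Isotrivial a := by decide +kernel

end Pool.Agent.Q63.KI
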